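import Pool.Agent.PFD.StmtsD5b
import Pool.Agent.Helper66_WAT.FNW
import Pool.Agent.Helper3_K9.Psi
import Pool.Agent.Helper24_AT2.DZA
import Pool.Agent.Helper32_KF.Cdz

/-!
# Squad PFD: the final theorem for the blocks which are abelian modulo a part of `O_ℓ(G)`
-/

open scoped BigOperators

set_option autoImplicit false

noncomputable section

namespace Pool.Agent.PFD.H66

open Pool.Agent.Helper51_AWC Pool.Agent.Helper79_WRA Pool.Agent.PP Pool.Agent.PP.KF
open Pool.Agent.PP.K9 Pool.Agent.PP.K9.H97 Pool.Agent.PP.H75 Pool.Agent.PP.T3 Pool.Agent.PP.T2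

attribute [local instance] Ideal.Quotient.field

/-- FNE: the theorem for characters.  `p : G → H` is surjective, its kernel is contained in
`O_ℓ(G) ≤ Z(G)`, the block of `ψ ∈ Irr(H)` is contained in the block of `χ`.  `D` is an abelian defect
group of the block of `ψ`, different from the image of `O_ℓ(G)`, `th` belongs to a block of `C(D)` under
the block of `ψ`, `Iner M D th` is its inertial group; it normalises a nontrivial subgroup `U` of `D`,
and `Iner M D th / C(D)` acts freely on `U - 1`. -/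
def FneStmt : Prop := ∀ (ℓ : ℕ) [Fact ℓ.Prime] (M : Ideal (integralClosure ℤ ℂ)) [M.IsMaximal],
  (ℓ : integralClosure ℤ ℂ) ∈ M → ∀ (G : Type) [Group G] [Finite G],
  opCore ℓ G ≤ Subgroup.center G → ∀ χ ∈ Irr G, ∀ (H : Type) [Group H] (p : G →* H),
  Function.Surjective p → p.ker ≤ opCore ℓ G → ∀ ψ ∈ Irr H,
  (∀ g : G, Cong M (omega (MonoidHom.id G) (fun x => ψ (p x)) g)
    (omega (MonoidHom.id G) χ g)) →
  ∀ D : Subgroup H, ML.IsDef ℓ M ψ D → D ≠ (opCore ℓ G).map p →
  (∀ x ∈ D, ∀ y ∈ D, x * y = y * x) →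
  ∀ th ∈ IrrBlock M (Subgroup.centralizer (D : Set H)).subtype ψ,
  ∀ U : Subgroup H, U ≤ D → U ≠ ⊥ →
  (∀ t ∈ Iner M D th, ∀ u ∈ U, t * u * t⁻¹ ∈ U) →
  (∀ t ∈ Iner M D th, ∀ u ∈ U, u ≠ 1 → t * u = u * t →
    t ∈ Subgroup.centralizer (D : Set H)) → altSum ℓ M χ = 0

/-- a central `ℓ`-subgroup is contained in the defect groups -/
theorem cen_le {ℓ : ℕ} {F : Type} [Field F] {H : Type} [Group H] [Finite H] {e : H → F}
    {V : Subgroup H} (h : Tp ℓ e V) (Z : Subgroup H) (hZ : IsPGroup ℓ Z)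
    (hc : Z ≤ Subgroup.center H) : Z ≤ V := by
  have hn : Z.Normal := by
    refine ⟨fun n hz g => ?_⟩
    have h1 := Subgroup.mem_center_iff.1 (hc hz) g
    rw [h1, mul_inv_cancel_right]
    exact hz
  have h2 : IsPGroup ℓ (Z ⊔ V : Subgroup H) := hZ.to_sup_of_normal_left h.pg
  obtain ⟨z, hz, hz0⟩ := h.gd
  have h3 : Gd e (Z ⊔ V) := by
    refine ⟨z, ?_, hz0⟩
    have h4 : Z ⊔ V ≤ Subgroup.centralizer ({z} : Set H) := by
      rw [sup_le_iff]
      constructor
      · intro x hx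
        rw [Subgroup.mem_centralizer_singleton_iff]
        exact (Subgroup.mem_center_iff.1 (hc hx) z).symm
      · intro x hx
        rw [Subgroup.mem_centralizer_singleton_iff]
        exact Subgroup.mem_centralizer_iff.1 hz x hx
    rw [Subgroup.mem_centralizer_iff]
    intro x hx
    exact Subgroup.mem_centralizer_singleton_iff.1 (h4 hx)
  have h5 := Subgroup.eq_of_le_of_card_ge (le_sup_right : V ≤ Z ⊔ V) (h.mx _ h2 h3)
  rw [h5]
  exact le_sup_left

theorem fne (hMny : MnyStmt) (hSpe : SpeStmt) (hF : T3.FltStmt) (hP : T3.PsgStmt) :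
    FneStmt := by
  intro ℓ hfact M _ hM G _ _ hc χ hχ H _ p hp hpk ψ hψ hψχ D hD hDO hab θ hθ U₀ hU₀ hU₀n hU₀s
    hU₀f
  have hℓ := hfact.out
  have hGF : GoodF ℓ (FF M) := H50.fld ℓ hℓ M hM
  have hfH : Finite H := Finite.of_surjective p hp
  obtain ⟨e, he, h1, h2⟩ := H50.bid ℓ hℓ M hM G χ hχ
  have hn : (opCore ℓ G).Normal := H75.opCore_normal (A := G) ℓ
  have hOp : IsPGroup ℓ (opCore ℓ G) := H75.opCore_isPGroup hℓ
  -- the block of `H`
  have hkp : IsPGroup ℓ p.ker := hOp.to_le hpk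
  have hkc : p.ker ≤ Subgroup.center G := hpk.trans hc
  have hb : IsBlk (push p e) := hP ℓ (FF M) hGF G H p hp hkc hkp e he
  have hlab : labF M (fun x => ψ (p x)) = labF M χ := by
    funext g
    exact (red_eq_iff (omega_integral _ (H3.irr_infl hp hψ) g) (omega_integral _ hχ g)).2
      (hψχ g)
  have hr : res M (push p e) ψ = 1 := by
    rw [H3.res_push hp he.1.1 hψ, H50.res_of_lab hlab e]
    exact h1
  obtain ⟨γ, hγ, hTg⟩ := hF ℓ M hM H ψ hψ (push p e) hb hr D hD hab θ hθ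
  have hmemT : ∀ t, t ∈ Tg D γ ↔ t ∈ Iner M D θ := by
    intro t
    rw [← hTg]
    rfl
  obtain ⟨U, W, hS⟩ := hSpe ℓ M hM H (push p e) D γ hγ U₀ hU₀ hU₀n
    (fun t ht => hU₀s t ((hmemT t).1 ht)) (fun t ht => hU₀f t ((hmemT t).1 ht))
  -- the quotient by the image of `O_ℓ(G)`
  have hcO : (opCore ℓ G).map p ≤ Subgroup.center H := by
    rintro _ ⟨x, hx, rfl⟩
    rw [Subgroup.mem_center_iff]
    intro y
    obtain ⟨g, rfl⟩ := hp y
    rw [← map_mul, ← map_mul, Subgroup.mem_center_iff.1 (hc hx) g]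
  have hle : (opCore ℓ G).map p ≤ D := cen_le hγ.tp _ (hOp.map p) hcO
  have hn2 : ((opCore ℓ G).map p).Normal := hn.map p hp
  obtain ⟨q, hq⟩ : ∃ q : H →* H ⧸ (opCore ℓ G).map p,
    q = QuotientGroup.mk' ((opCore ℓ G).map p) := ⟨_, rfl⟩
  have hqk : q.ker = (opCore ℓ G).map p := by
    rw [hq]
    exact QuotientGroup.ker_mk' _
  have hqs : Function.Surjective q := by
    rw [hq]
    exact QuotientGroup.mk'_surjective _
  have hrs : Function.Surjective (q.comp p) := hqs.comp hp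
  have hrk : (q.comp p).ker = opCore ℓ G := by
    rw [← MonoidHom.comap_ker, hqk, Subgroup.comap_map_eq, sup_eq_left.2 hpk]
  have heq := H75.altSum_central H20.nls H20.brm H63.smt H94.nch
    (H50.dic H20.ibn H20.nls H20.brm) hℓ M hM hGF hrs hrk (by rw [hrk]; exact hOp)
    (by rw [hrk]; exact hc) χ hχ e he h1 h2
  have h0 : YY ℓ (⊤ : Subgroup (H ⧸ (opCore ℓ G).map p)) (push q (push p e)) = 0 :=
    hMny ℓ M hM H (push p e) D γ hγ U W hS (H ⧸ (opCore ℓ G).map p) q hqs
      (by rw [hqk]; exact hle) (by rw [hqk]; exact fun h => hDO h.symm)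
  rw [H32.push_comp, h0, mul_zero] at heq
  rcases mul_eq_zero.1 heq with h | h
  · exact absurd h (by exact_mod_cast (Nat.card_pos (α := G)).ne')
  · exact h

end Pool.Agent.PFD.H66
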