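import Pool.Agent.AT8.Asm
import Pool.Agent.Helper39_AT6.LWD
import Pool.Agent.Helper45_PFC.JEX
import Pool.Agent.Helper51_PFC.LNO
import Pool.Agent.Helper29_PFC.REP
import Pool.Agent.Helper8_PFC.NNZ
import Pool.Agent.Helper24_PFC.PIC
import Pool.Agent.Helper52_PFC.JUN
import Pool.Agent.Helper44_PFC.NPH
import Pool.Agent.Helper12_PFC.LMB
import Pool.Agent.Helper12_PFC.NKA
import Pool.Agent.Helper23_PFC.CFA
import Pool.Agent.Helper77_PFC.CFB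
import Pool.Agent.Helper38_PFC.CPS
import Pool.Agent.Helper9_PFC.FFA
import Pool.Agent.Helper33_PFC.FUW
import Pool.Agent.Helper75_PFC.Fsn
import Pool.Agent.PFC.B4.Psx_h10
import Pool.Agent.Helper24_PFC.FPS
import Pool.Agent.Helper70_PFC.CBR
import Pool.Agent.Helper76_PFC.LCP
import Pool.Agent.Helper70_PFC.CJJ
import Pool.Agent.Helper75_PFC.Jcj
import Pool.Agent.Helper62_PFC.UNT
import Pool.Agent.Helper64_PFD.SPF
import Pool.Agent.Helper33_PFD.JLX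
import Pool.Agent.Helper63_PFD.EGX
import Pool.Agent.Helper52_PFD.FUL
import Pool.Agent.Helper29_PFD.LSG
import Pool.Agent.Helper61_PFD.CTR
import Pool.Agent.Helper91_PFD.PBX

/-!
# Squad PFD, block D5a: assembly (`PbxStmt`)
-/

noncomputable section

namespace Pool.Agent.PFD.H66

open Pool.Agent.PP

theorem lno_ : PFC.LnoStmt := PFC.H51.lno K9.wbo_ T3.lrk_ T8.rg1_

theorem nnz_ : PFC.NnzStmt := PFC.H8.nnz T8.lft_ T8.omi_ T8.knz_ T3.nit_ T3.nil_ T3.dgc_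

theorem jex_ : PFC.JexStmt := PFC.H45.jex T8.idp_ T8.rk1_ T8.knz_ T3.dgc_ KF.H25.idm

theorem lmb_ : PFC.LmbStmt := PFC.H12.lmb T8.rg1_ T3.cen_ T3.psg_

theorem cfb_ : PFC.CfbStmt :=
  PFC.H77.cfb (PFC.H23.cfa PFC.H52.jun PFC.H44.nph lmb_) PFC.H12.nka lmb_ PFC.H52.jun

theorem ffa_ : PFC.FfaStmt := PFC.H9F.ffa cfb_ PFC.H38.cps

theorem fps_ : PFC.FpsStmt := PFC.H24.fps PFC.H38.cps (PFC.H75.fsn PFC.H33.fuw) PFC.H10.psx

theorem lcp_ : PFC.LcpStmt := PFC.H76.lcp (PFC.H70.cbr PFC.H38.cps)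

theorem unt_ : PFC.UntStmt :=
  PFC.H62.unt (PFC.H70.cjj lno_ PFC.H29.rep T6.H39.lwd) PFC.H75.jcj

theorem ful_ : FulStmt := H52.ful T8.lft_ T8.omi_ T8.knz_ T3.dgc_ K9.H34.inx

theorem pbx_ : PbxStmt :=
  H91.pbx H64.spf (H33.jlx lno_ PFC.H29.rep nnz_ PFC.H24.pic) (H63.egx H64.spf) ful_ H29.lsg
    H61.ctr jex_ PFC.H52.jun ffa_ fps_ lcp_ unt_

end Pool.Agent.PFD.H66
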