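import Pool.Agent.Helper43_PFC.AllB5
import Pool.Agent.Helper70_PFC.QFCa
import Pool.Agent.Helper67_PFC.QTM
import Pool.Agent.Helper62_PFC.QMX
import Pool.Agent.Helper72_PFC.QRE
import Pool.Agent.Helper6_PFC.QRT
import Pool.Agent.Helper3_PFC.QLR
import Pool.Agent.Helper34_PFC.QSP

/-!
# Squad PFD: assembly of the Puig part (`PmzStmt`)
-/

noncomputable section

namespace Pool.Agent.PFD.H66

open Pool.Agent.PFC

theorem pmz_ : PmzStmt :=
  B5c.H43.pmzT B5a.H70.qfc H67.qtm H62.qmx (H3.qlr (H63.qlp H85Q.qis) H85Q.qis H72.qre H6.qrt)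
    (H34.qsp H18.qke)

end Pool.Agent.PFD.H66
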