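import Pool.Agent.Helper66_PFD.Top
import Pool.Agent.Helper66_PFD.Fne
import Pool.Agent.Helper66_PFD.AsmBlk
import Pool.Agent.Helper66_PFD.AsmPmz
import Pool.Agent.Helper18_PFD.AsmD3
import Pool.Agent.Helper36_PFD.AsmD4
import Pool.Agent.Helper79_PFD.TopD6
import Pool.Agent.Helper52_PFD.WIT
import Pool.Agent.Helper92_PFD.CYB
import Pool.Agent.Helper49_PFD.KCT
import Pool.Agent.PFD.AsmD5b

/-!
# Squad PFD: assembly of the final theorem

`kal_ : KalStmt`: the theorem for algebras; `keg_ : KegStmt`: blocks with an inertial index which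
acts freely have the same number of ordinary characters as their Brauer correspondents;
`leq_ : LeqStmt`: the number of modular characters of a block; `mny_ : MnyStmt`: the alternating
sums; `fnd_ : FndStmt`, `fne_ : FneStmt`: the final theorem.
-/

noncomputable section

namespace Pool.Agent.PFD.H66

open Pool.Agent.PP

theorem kal_ : KalStmt :=
  kal (meq H52.wit D3.H18.box D6.H79.txt_top H36.meq) (H49k.kct H92.cyb)

theorem keg_ : KegStmt := keg pbx_ pmz_ kal_

theorem leq_ : LeqStmt := leq_of keg_

theorem mny_ : MnyStmt := mny_of keg_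

theorem fnd_ : FndStmt := fnd_of keg_

theorem fne_ : FneStmt := fne_of keg_

theorem fin_ : FinStmt := fin_of keg_

end Pool.Agent.PFD.H66
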