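import Pool.Agent.PFD.Chain2
import Pool.Agent.PFD.StmtsD3
import Pool.Agent.PFD.StmtsD4
import Pool.Agent.PFD.StmtsD5b

/-!
# Squad PFD: the junctions of the blocks D3, D4, D6 (`MeqStmt`) and of D5 (`KxeStmt`)
-/

open scoped BigOperators

noncomputable section

namespace Pool.Agent.PFD.H66

open Pool.Agent.Helper51_AWC Pool.Agent.Helper79_WRA Pool.Agent.PP Pool.Agent.PP.KF
open Pool.Agent.PP.K9 Pool.Agent.PP.K9.H97 Pool.Agent.PP.H75 Pool.Agent.PP.T3 Pool.Agent.PP.T2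
open Pool.Agent.PFC (PIn PMid Ctf ls Cz PmzStmt)

attribute [local instance] Ideal.Quotient.field

theorem meq (wit : Pool.Agent.PFD.D3.WitStmt) (box : Pool.Agent.PFD.D3.BoxStmt)
    (txt : Pool.Agent.PFD.D6.TxtStmt) (m : Pool.Agent.PFD.D4.MeqStmt) :
    MeqStmt := by
  intro F V E A _ _ _ _ _ _ _ _ ℓ _ φ W α hc hp
  have : Fact ℓ.Prime := ⟨hc.pr⟩
  obtain ⟨z, ⟨X⟩⟩ := txt F V E A ℓ φ W α hc hp
  obtain ⟨c, ⟨o⟩⟩ := wit ℓ F
  obtain ⟨U, hU, hs⟩ := hc.cmp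
  have hnt : ∃ u ∈ U, u ≠ 1 := by
    by_contra h
    push Not at h
    have h1 : U = ⊥ := (Subgroup.eq_bot_iff_forall U).2 h
    obtain ⟨u, hu⟩ := hc.nt
    have h2 := hU.sup_eq_top
    rw [h1, bot_sup_eq] at h2
    exact hu (h2 ▸ Subgroup.mem_top u)
  have hC : CtW ℓ φ U W := by
    refine ⟨hc.pr, hc.pg, inferInstance, hc.cop, hs, hc.stab, hU.inf_eq_bot, hU.sup_eq_top, hnt, ?_⟩
    intro e u hu h
    rcases hc.free e u h with h1 | h1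
    · exact Or.inl h1
    · refine Or.inr ?_
      have h2 : u ∈ U ⊓ W := ⟨hu, h1⟩
      rw [hU.inf_eq_bot] at h2
      exact Subgroup.mem_bot.1 h2
  obtain ⟨Γ, _, _, _, _, ⟨B⟩⟩ := box (WittVector ℓ F) F V E ℓ c o φ U W z hC
  exact ⟨z, m (WittVector ℓ F) F V E A Γ ℓ c o φ W z B X hc.stab⟩

theorem kxe (keg : KegStmt) (trn : TrnStmt) : KxeStmt := by
  intro ℓ hℓ M hMm hM G _ _ e V γ hL U W hS
  obtain ⟨V', E, i1, i2, i3, i4, ι, φ, h1, h2, h3, h4, h5, h6⟩ :=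
    keg ℓ M hM G e V γ hL U W hS
  rw [h6]
  exact trn (FF M) G V γ V' E ι φ h1 h2 h3 h4 h5

end Pool.Agent.PFD.H66
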